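import Pool.Agent.MPC.Defs

/-!
# Closed algebraic subsets of products of projective spaces: definitions
-/

set_option linter.unusedSectionVars false

open MvPolynomial
open scoped LinearAlgebra.Projectivization

namespace Pool.Agent.BS

section

variable {k κ κ' : Type*} [Field k] [Field κ] [Field κ'] {r : ℕ} {J : Fin r → Type}

/-- The elements of `𝓕` are multihomogeneous. -/
def MHom [∀ i, Fintype (J i)] (𝓕 : Set (MvPolynomial (Σ i, J i) k)) : Prop :=
  ∀ F ∈ 𝓕, ∃ δ : Fin r → ℕ, MPC.IsMultihomogeneous F δ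

/-- The closed subset of the product of projective spaces over `κ` given by the equations `F = 0`,
for `F` in `𝓕` (with coefficients in `k`, a subfield of `κ` via `e`). -/
def MZer (e : k →+* κ) (𝓕 : Set (MvPolynomial (Σ i, J i) k)) : Set (∀ i, ℙ κ (J i → κ)) :=
  {p | ∀ F ∈ 𝓕, eval₂ e (fun a => (p a.1).rep a.2) F = 0}

end

variable {r : ℕ} {J : Fin r → Type} [∀ i, Fintype (J i)]

/-- `Z` is a closed algebraic subset of the product of projective spaces. -/
def IsAlgebraicProd (Z : Set (∀ i, ℙ ℂ (J i → ℂ))) : Prop :=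
  ∃ 𝓩 : Set (MvPolynomial (Σ i, J i) ℂ), MHom 𝓩 ∧ Z = MZer (RingHom.id ℂ) 𝓩

/-- The subset `U` of `X` is dense in the Zariski topology: every multihomogeneous polynomial which
vanishes on `U` vanishes on `X`. -/
def ZariskiDenseProd (U X : Set (∀ i, ℙ ℂ (J i → ℂ))) : Prop :=
  ∀ (F : MvPolynomial (Σ i, J i) ℂ) (δ : Fin r → ℕ), MPC.IsMultihomogeneous F δ →
    (∀ p ∈ U, eval (fun a => (p a.1).rep a.2) F = 0) →
    ∀ p ∈ X, eval (fun a => (p a.1).rep a.2) F = 0

end Pool.Agent.BS
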